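import Pool.Agent.H.MP_6c6e33_an.B

set_option autoImplicit false

namespace Pool.Agent.Results.MP_5c6457_an.Yes

open MeasureTheory

theorem result (a b : ℝ) (_ha : 0 < a) (_hb : 0 < b) (g : Lp ℂ 2 (volume : Measure ℝ))
    (f : ℤ × ℤ → Lp ℂ 2 (volume : Measure ℝ))
    (hf : ∀ p : ℤ × ℤ, f p =ᵐ[volume] fun x : ℝ =>
      Complex.exp (2 * Real.pi * Complex.I * (p.1 * b * x)) * g (x - p.2 * a))
    (hF : ∃ A B : ℝ, 0 < A ∧ 0 < B ∧ ∀ φ : Lp ℂ 2 (volume : Measure ℝ),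
      Summable (fun p => ‖inner ℂ φ (f p)‖ ^ 2) ∧
      A * ‖φ‖ ^ 2 ≤ ∑' p, ‖inner ℂ φ (f p)‖ ^ 2 ∧ ∑' p, ‖inner ℂ φ (f p)‖ ^ 2 ≤ B * ‖φ‖ ^ 2) :
    (∀ τ : ℕ ≃ ℤ × ℤ, (∃ T : Submodule.span ℂ (Set.range f) →L[ℂ] Lp ℂ 2 (volume : Measure ℝ),
        ∀ k, T ⟨f (τ k), Submodule.subset_span ⟨τ k, rfl⟩⟩ = f (τ (k + 1))) →
      ∀ σ : ℕ ≃ ℤ × ℤ, ∃ T : Lp ℂ 2 (volume : Measure ℝ) →L[ℂ] Lp ℂ 2 (volume : Measure ℝ),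
        Function.Injective T ∧ ∀ k, T (f (σ k)) = f (σ (k + 1))) ∧
    (∀ τ : ℤ ≃ ℤ × ℤ, (∃ T : Submodule.span ℂ (Set.range f) →L[ℂ] Lp ℂ 2 (volume : Measure ℝ),
        ∀ k, T ⟨f (τ k), Submodule.subset_span ⟨τ k, rfl⟩⟩ = f (τ (k + 1))) →
      ∀ σ : ℤ ≃ ℤ × ℤ, ∃ T : Lp ℂ 2 (volume : Measure ℝ) →L[ℂ] Lp ℂ 2 (volume : Measure ℝ),
        Function.Injective T ∧ ∀ k, T (f (σ k)) = f (σ (k + 1))) := by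
  obtain ⟨A, B, hA, -, hF⟩ := hF
  refine ⟨fun τ ⟨T, h⟩ σ => ?_, fun τ ⟨T, h⟩ σ => ?_⟩
  · obtain ⟨S, h1, h2⟩ := Pool.Agent.H.MP_6c6e33_an.rep
      (Pool.Agent.H.MP_6c6e33_an.rnat hf hA hF τ T h) (s := fun i => σ (σ.symm i + 1))
      (σ.injective.comp ((add_left_injective 1).comp σ.symm.injective))
    exact ⟨S, h1, fun k => by simpa using h2 (σ k)⟩
  obtain ⟨S, h1, h2⟩ := Pool.Agent.H.MP_6c6e33_an.rep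
    (Pool.Agent.H.MP_6c6e33_an.rint hf hA hF τ T h) (s := fun i => σ (σ.symm i + 1))
    (σ.injective.comp ((add_left_injective 1).comp σ.symm.injective))
  exact ⟨S, h1, fun k => by simpa using h2 (σ k)⟩

end Pool.Agent.Results.MP_5c6457_an.Yes
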